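import Mathlib
import Pool.Agent.Helper113_perm.PermDP

/-! Two non-isomorphic graphs on eight vertices with the same polynomial `Q`. -/

namespace Pool.Agent.Results.MP_5909b9_co.Collision

open MvPolynomial Matrix

/-- The polynomial ring `ℚ[x, lam, mu]` with `x = X 0`, `lam = X 1`, `mu = X 2`. -/
abbrev R3 : Type := MvPolynomial (Fin 3) ℚ

/-- The adjacency matrix of a graph on `n` vertices with entries in `ℚ[x, lam, mu]`. -/
noncomputable def adjM {n : ℕ} (G : SimpleGraph (Fin n)) : Matrix (Fin n) (Fin n) R3 := by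
  classical exact Matrix.of fun i j => if G.Adj i j then 1 else 0

/-- The all-ones matrix `J`. -/
noncomputable def allOnes (n : ℕ) : Matrix (Fin n) (Fin n) R3 := Matrix.of fun _ _ => 1

/-- `P(G; x, lam, mu) = per (x I + lam A + mu (J - I - A))`. -/
noncomputable def P {n : ℕ} (G : SimpleGraph (Fin n)) : R3 :=
  ((X 0 : R3) • (1 : Matrix (Fin n) (Fin n) R3) + (X 1 : R3) • adjM G
    + (X 2 : R3) • (allOnes n - 1 - adjM G)).permanent

/-- The linear operator which divides the coefficient of each monomial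
`x^a lam^b mu^r` by `r!`. -/
noncomputable def omega (p : R3) : R3 :=
  ∑ m ∈ p.support, monomial m (p.coeff m / ((m 2).factorial : ℚ))

/-- `Q(G; x, lam, mu) = omega (P(G; x + mu, lam + mu, mu))`. -/
noncomputable def Q {n : ℕ} (G : SimpleGraph (Fin n)) : R3 :=
  omega (aeval ![(X 0 : R3) + X 2, (X 1 : R3) + X 2, (X 2 : R3)] (P G))

/-- Row masks of the two graphs. -/
def mG : List ℕ := [96, 224, 152, 84, 172, 147, 139, 118]

def mH : List ℕ := [192, 152, 104, 38, 226, 156, 149, 115]

/-- Graph from row masks. -/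
def adjB (m : List ℕ) (i j : Fin 8) : Bool := (m.getD i.val 0).testBit j.val

def gr (m : List ℕ) (hs : ∀ i j, adjB m i j = adjB m j i) (hi : ∀ i, adjB m i i = false) :
    SimpleGraph (Fin 8) where
  Adj i j := adjB m i j = true
  symm := ⟨fun i j h => by rw [hs]; exact h⟩
  loopless := ⟨fun i h => by simp [hi i] at h⟩


/-- The type of the entry `(i, j)`: diagonal, edge or non-edge. -/
def colN (m : List ℕ) (i j : ℕ) : Fin 3 :=
  if i = j then 0 else if (m.getD i 0).testBit j then 1 else 2

def e3 (s : Fin 3) : ℕ := if s = 0 then 1 else if s = 1 then 9 else 0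

def rowsOf (m : List ℕ) : List (ℕ → ℕ) :=
  List.ofFn fun i : Fin 8 => fun j : ℕ => 65536 ^ e3 (colN m i j)

theorem colN_symm_G : ∀ i j : Fin 8, colN mG i j = colN mG j i := by decide

theorem colN_symm_H : ∀ i j : Fin 8, colN mH i j = colN mH j i := by decide

def phi (k : ℕ) : Fin 3 → ℕ := fun s =>
  if s = 0 then k % 9 else if s = 1 then k / 9 else 8 - k % 9 - k / 9

theorem prod_eq_phi (t : Fin 8 → Fin 3) :
    ∏ i, (X (t i) : R3) = ∏ s, (X s : R3) ^ phi (∑ i, e3 (t i)) s := by
  have h1 : ∏ i, (X (t i) : R3) = ∏ s, (X s : R3) ^ (Finset.univ.filter fun i => t i = s).card := by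
    rw [← Finset.prod_fiberwise_of_maps_to (s := Finset.univ) (t := Finset.univ) (g := t)
      (fun i _ => Finset.mem_univ _)]
    apply Finset.prod_congr rfl
    intro s _
    rw [Finset.prod_congr rfl (g := fun _ => (X s : R3))]
    · simp
    · intro i hi; rw [(Finset.mem_filter.1 hi).2]
  have h2 : ∑ i, e3 (t i) = ∑ s, (Finset.univ.filter fun i => t i = s).card * e3 s := by
    rw [← Finset.sum_fiberwise_of_maps_to (s := Finset.univ) (t := Finset.univ) (g := t)
      (fun i _ => Finset.mem_univ _)]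
    apply Finset.sum_congr rfl
    intro s _
    rw [Finset.sum_congr rfl (g := fun _ => e3 s)]
    · simp
    · intro i hi; rw [(Finset.mem_filter.1 hi).2]
  have h3 : ∑ s : Fin 3, (Finset.univ.filter fun i => t i = s).card = 8 := by
    have := Finset.card_eq_sum_card_fiberwise (s := (Finset.univ : Finset (Fin 8)))
      (t := (Finset.univ : Finset (Fin 3))) (f := t) (fun i _ => Finset.mem_univ _)
    simpa using this.symm
  rw [h1]
  rw [Fin.sum_univ_three] at h2 h3
  simp only [e3] at h2
  apply Finset.prod_congr rfl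
  intro s _
  congr 1
  have e1 : ∑ i, e3 (t i) = (Finset.univ.filter fun i => t i = 0).card
      + 9 * (Finset.univ.filter fun i => t i = 1).card := by
    rw [show (∑ i, e3 (t i)) = ∑ i, (if t i = 0 then 1 else if t i = 1 then 9 else 0) from rfl, h2]
    simp; ring
  rw [e1]
  unfold phi
  fin_cases s <;> simp <;> omega

theorem P_eq (m : List ℕ) (hs : ∀ i j, adjB m i j = adjB m j i) (hi : ∀ i, adjB m i i = false)
    (hc : ∀ i j : Fin 8, colN m i j = colN m j i) :
    P (gr m hs hi) = ∑ σ : Equiv.Perm (Fin 8),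
      ∏ s, (X s : R3) ^ phi (∑ i : Fin 8, e3 (colN m i (σ i))) s := by
  unfold P Matrix.permanent
  apply Finset.sum_congr rfl
  intro σ _
  rw [← prod_eq_phi]
  apply Finset.prod_congr rfl
  intro i _
  rw [hc]
  generalize σ i = j
  simp only [Matrix.add_apply, Matrix.smul_apply, Matrix.sub_apply, allOnes, adjM, Matrix.of_apply,
    smul_eq_mul, gr, colN, adjB]
  by_cases hij : j = i
  · subst hij
    have := hi j
    simp only [adjB] at this
    simp only [this, Bool.false_eq_true, if_false, if_true, Matrix.one_apply_eq]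
    simp
  · have hij' : (j : ℕ) ≠ i := fun h => hij (Fin.ext h)
    rw [Matrix.one_apply_ne hij, if_neg hij']
    split_ifs <;> simp_all

theorem kron (m : List ℕ) : ∑ σ : Equiv.Perm (Fin 8), 65536 ^ (∑ i : Fin 8, e3 (colN m i (σ i)))
    = Helper113_perm.top 8 (Helper113_perm.dp 8 (rowsOf m)) := by
  rw [← Helper113_perm.perm_sum_eq (rowsOf m) (fun i j : Fin 8 => 65536 ^ e3 (colN m i j))]
  · apply Finset.sum_congr rfl
    intro σ _
    rw [Finset.prod_pow_eq_pow_sum]
  · rw [rowsOf, List.map_ofFn]; rfl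

theorem num : Helper113_perm.top 8 (Helper113_perm.dp 8 (rowsOf mG))
    = Helper113_perm.top 8 (Helper113_perm.dp 8 (rowsOf mH)) := by decide +kernel

/-- The first graph. -/
def G₁ : SimpleGraph (Fin 8) := gr mG (by decide) (by decide)

/-- The second graph. -/
def G₂ : SimpleGraph (Fin 8) := gr mH (by decide) (by decide)

theorem P_eq_P : P G₁ = P G₂ := by
  unfold G₁ G₂
  rw [P_eq mG _ _ colN_symm_G, P_eq mH _ _ colN_symm_H]
  apply Helper113_perm.sum_eq_of_kronecker 65536 _
    (fun σ : Equiv.Perm (Fin 8) => ∑ i : Fin 8, e3 (colN mG i (σ i)))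
    (fun σ : Equiv.Perm (Fin 8) => ∑ i : Fin 8, e3 (colN mH i (σ i))) _
    (fun k => ∏ s, (X s : R3) ^ phi k s)
  · rw [Fintype.card_perm]; decide
  · rw [kron, kron, num]

theorem not_iso : IsEmpty (G₁ ≃g G₂) := by
  constructor
  intro f
  have h2 : ∃ a b c : Fin 8, adjB mH a b = true ∧ adjB mH a c = true ∧ adjB mH b c = true ∧
      ∀ d, adjB mH a d = true → d = b ∨ d = c := by decide
  have h1 : ¬ ∃ a b c : Fin 8, adjB mG a b = true ∧ adjB mG a c = true ∧ adjB mG b c = true ∧
      ∀ d, adjB mG a d = true → d = b ∨ d = c := by decide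
  apply h1
  obtain ⟨a, b, c, hab, hac, hbc, hd⟩ := h2
  have key : ∀ x y : Fin 8, adjB mH x y = true → adjB mG (f.symm x) (f.symm y) = true :=
    fun x y h => (f.symm.map_rel_iff' (a := x) (b := y)).2 h
  refine ⟨f.symm a, f.symm b, f.symm c, key _ _ hab, key _ _ hac, key _ _ hbc, ?_⟩
  intro d h
  have h' : adjB mH a (f d) = true := by
    have : G₁.Adj (f.symm a) d := h
    have := (f.map_rel_iff' (a := f.symm a) (b := d)).2 this
    have e : f (f.symm a) = a := f.apply_symm_apply a
    have h3 : G₂.Adj (f (f.symm a)) (f d) := this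
    rw [e] at h3
    exact h3
  rcases hd _ h' with h | h
  · left; rw [← h]; exact (f.symm_apply_apply d).symm
  · right; rw [← h]; exact (f.symm_apply_apply d).symm

/-- There are two non-isomorphic graphs on eight vertices with the same polynomial `P`, and hence
with the same polynomial `Q`. -/
theorem result : ∃ G H : SimpleGraph (Fin 8), IsEmpty (G ≃g H) ∧ P G = P H ∧ Q G = Q H :=
  ⟨G₁, G₂, not_iso, P_eq_P, by unfold Q; rw [P_eq_P]⟩

end Pool.Agent.Results.MP_5909b9_co.Collision
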